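import Pool.Agent.Lib.MP_250511_an.ST.Chk2

/-!
Problem MP_250511_an, Q2: the potentials for `S₁ ≥ 0.615` (potential `i` for the openings in
`[(17 + i) / 32, (18 + i) / 32]`).
-/

set_option autoImplicit false

namespace Pool.Agent.Lib.MP250511.ST.Chk.D615

/-- no inner slits (`A₁ ≥ log 2`); for `i = 0, 1, 2`, which do not occur in the cover -/
def pB : IPt := ⟨0, 726818, 0, 524288, 524288⟩
def p3 : IPt := ⟨54698, 661333, 0, 491233, 491233⟩
def p4 : IPt := ⟨70394, 643631, 0, 477921, 477921⟩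
def p5 : IPt := ⟨97770, 595582, 0, 404865, 404865⟩
def p6 : IPt := ⟨178832, 474692, 0, 445153, 445153⟩
def p7 : IPt := ⟨298668, 310128, 0, 370049, 370049⟩
def p8 : IPt := ⟨332641, 264732, 0, 374612, 374612⟩
def p9 : IPt := ⟨444960, 122317, 0, 357646, 357646⟩
def p10 : IPt := ⟨555835, 0, 12341, 292954, 292954⟩
def p11 : IPt := ⟨606527, 0, 74076, 228589, 228589⟩
def p12 : IPt := ⟨669559, 0, 148139, 150995, 150995⟩
def p13 : IPt := ⟨695726, 0, 179612, 110100, 110100⟩
def p14 : IPt := ⟨884032, 0, 375026, 104858, 104858⟩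

def tab : ℕ → IPt := tb p14 [pB, pB, pB, p3, p4, p5, p6, p7, p8, p9, p10, p11, p12, p13, p14]

end Pool.Agent.Lib.MP250511.ST.Chk.D615
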