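import Pool.Agent.Lib.MP_250511_an.ST.FIN
import Pool.Agent.Lib.MP_250511_an.ST.D615.C12_928_0
import Pool.Agent.Lib.MP_250511_an.ST.D615.C12_944_0

/-!
Problem MP_250511_an, Q2: validity of the potential `p12` (assembly of the kernel checks).
-/

set_option autoImplicit false

namespace Pool.Agent.Lib.MP250511.ST.Chk.D615

theorem v12_928 : VP p12 928 944 := by
  have r0 := rows0 p12 928 944
  have s0_0 := seg p12 928 944 0 128 _ 0 128 c12_928_0_0_ok
  have r128 := r0.step s0_0
  have s128_0 := seg p12 928 944 128 144 _ 0 144 c12_928_128_0_ok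
  have r144 := r128.step s128_0
  have s144_0 := seg p12 928 944 144 160 _ 0 160 c12_928_144_0_ok
  have r160 := r144.step s144_0
  have s160_0 := seg p12 928 944 160 176 _ 0 176 c12_928_160_0_ok
  have r176 := r160.step s160_0
  have s176_0 := seg p12 928 944 176 192 _ 0 192 c12_928_176_0_ok
  have r192 := r176.step s176_0
  have s192_0 := seg p12 928 944 192 208 _ 0 208 c12_928_192_0_ok
  have r208 := r192.step s192_0
  have s208_0 := seg p12 928 944 208 224 _ 0 224 c12_928_208_0_ok
  have r224 := r208.step s208_0
  have s224_0 := seg p12 928 944 224 240 _ 0 240 c12_928_224_0_ok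
  have r240 := r224.step s224_0
  have s240_0 := seg p12 928 944 240 256 _ 0 256 c12_928_240_0_ok
  have r256 := r240.step s240_0
  have s256_0 := seg p12 928 944 256 272 _ 0 272 c12_928_256_0_ok
  have r272 := r256.step s256_0
  have s272_0 := seg p12 928 944 272 288 _ 0 288 c12_928_272_0_ok
  have r288 := r272.step s272_0
  have s288_0 := seg p12 928 944 288 304 _ 0 304 c12_928_288_0_ok
  have r304 := r288.step s288_0
  have s304_0 := seg p12 928 944 304 320 _ 0 320 c12_928_304_0_ok
  have r320 := r304.step s304_0
  have s320_0 := seg p12 928 944 320 336 _ 0 336 c12_928_320_0_ok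
  have r336 := r320.step s320_0
  have s336_0 := seg p12 928 944 336 352 _ 0 352 c12_928_336_0_ok
  have r352 := r336.step s336_0
  have s352_0 := seg p12 928 944 352 368 _ 0 368 c12_928_352_0_ok
  have r368 := r352.step s352_0
  have s368_0 := seg p12 928 944 368 384 _ 0 384 c12_928_368_0_ok
  have r384 := r368.step s368_0
  have s384_0 := seg p12 928 944 384 400 _ 0 400 c12_928_384_0_ok
  have r400 := r384.step s384_0
  have s400_0 := seg p12 928 944 400 416 _ 0 416 c12_928_400_0_ok
  have r416 := r400.step s400_0
  have s416_0 := seg p12 928 944 416 432 _ 0 432 c12_928_416_0_ok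
  have r432 := r416.step s416_0
  have s432_0 := seg p12 928 944 432 448 _ 0 448 c12_928_432_0_ok
  have r448 := r432.step s432_0
  have s448_0 := seg p12 928 944 448 464 _ 0 464 c12_928_448_0_ok
  have r464 := r448.step s448_0
  have s464_0 := seg p12 928 944 464 480 _ 0 480 c12_928_464_0_ok
  have r480 := r464.step s464_0
  have s480_0 := seg p12 928 944 480 496 _ 0 496 c12_928_480_0_ok
  have r496 := r480.step s480_0
  have s496_0 := seg p12 928 944 496 512 _ 0 512 c12_928_496_0_ok
  have r512 := r496.step s496_0
  exact r512.valid rfl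

theorem v12_944 : VP p12 944 960 := by
  have r0 := rows0 p12 944 960
  have s0_0 := seg p12 944 960 0 128 _ 0 128 c12_944_0_0_ok
  have r128 := r0.step s0_0
  have s128_0 := seg p12 944 960 128 144 _ 0 144 c12_944_128_0_ok
  have r144 := r128.step s128_0
  have s144_0 := seg p12 944 960 144 160 _ 0 160 c12_944_144_0_ok
  have r160 := r144.step s144_0
  have s160_0 := seg p12 944 960 160 176 _ 0 176 c12_944_160_0_ok
  have r176 := r160.step s160_0
  have s176_0 := seg p12 944 960 176 192 _ 0 192 c12_944_176_0_ok
  have r192 := r176.step s176_0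
  have s192_0 := seg p12 944 960 192 208 _ 0 208 c12_944_192_0_ok
  have r208 := r192.step s192_0
  have s208_0 := seg p12 944 960 208 224 _ 0 224 c12_944_208_0_ok
  have r224 := r208.step s208_0
  have s224_0 := seg p12 944 960 224 240 _ 0 240 c12_944_224_0_ok
  have r240 := r224.step s224_0
  have s240_0 := seg p12 944 960 240 256 _ 0 256 c12_944_240_0_ok
  have r256 := r240.step s240_0
  have s256_0 := seg p12 944 960 256 272 _ 0 272 c12_944_256_0_ok
  have r272 := r256.step s256_0
  have s272_0 := seg p12 944 960 272 288 _ 0 288 c12_944_272_0_ok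
  have r288 := r272.step s272_0
  have s288_0 := seg p12 944 960 288 304 _ 0 304 c12_944_288_0_ok
  have r304 := r288.step s288_0
  have s304_0 := seg p12 944 960 304 320 _ 0 320 c12_944_304_0_ok
  have r320 := r304.step s304_0
  have s320_0 := seg p12 944 960 320 336 _ 0 336 c12_944_320_0_ok
  have r336 := r320.step s320_0
  have s336_0 := seg p12 944 960 336 352 _ 0 352 c12_944_336_0_ok
  have r352 := r336.step s336_0
  have s352_0 := seg p12 944 960 352 368 _ 0 368 c12_944_352_0_ok
  have r368 := r352.step s352_0
  have s368_0 := seg p12 944 960 368 384 _ 0 384 c12_944_368_0_ok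
  have r384 := r368.step s368_0
  have s384_0 := seg p12 944 960 384 400 _ 0 400 c12_944_384_0_ok
  have r400 := r384.step s384_0
  have s400_0 := seg p12 944 960 400 416 _ 0 416 c12_944_400_0_ok
  have r416 := r400.step s400_0
  have s416_0 := seg p12 944 960 416 432 _ 0 432 c12_944_416_0_ok
  have r432 := r416.step s416_0
  have s432_0 := seg p12 944 960 432 448 _ 0 448 c12_944_432_0_ok
  have r448 := r432.step s432_0
  have s448_0 := seg p12 944 960 448 464 _ 0 464 c12_944_448_0_ok
  have r464 := r448.step s448_0
  have s464_0 := seg p12 944 960 464 480 _ 0 480 c12_944_464_0_ok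
  have r480 := r464.step s464_0
  have s480_0 := seg p12 944 960 480 496 _ 0 496 c12_944_480_0_ok
  have r496 := r480.step s480_0
  have s496_0 := seg p12 944 960 496 512 _ 0 512 c12_944_496_0_ok
  have r512 := r496.step s496_0
  exact r512.valid rfl

theorem v12 : Valid p12.ptl ((17 + ((12 : ℕ) : ℝ)) / 32) ((18 + ((12 : ℕ) : ℝ)) / 32) :=
  VP.cell 12 (VP.join v12_928 v12_944)

end Pool.Agent.Lib.MP250511.ST.Chk.D615
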