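import Pool.Agent.Lib.MP_250511_an.ST.FIN
import Pool.Agent.Lib.MP_250511_an.ST.D615.C13_960_0
import Pool.Agent.Lib.MP_250511_an.ST.D615.C13_968_0
import Pool.Agent.Lib.MP_250511_an.ST.D615.C13_976_0
import Pool.Agent.Lib.MP_250511_an.ST.D615.C13_984_0

/-!
Problem MP_250511_an, Q2: validity of the potential `p13` (assembly of the kernel checks).
-/

set_option autoImplicit false

namespace Pool.Agent.Lib.MP250511.ST.Chk.D615

theorem v13_960 : VP p13 960 968 := by
  have r0 := rows0 p13 960 968
  have s0_0 := seg p13 960 968 0 128 _ 0 128 c13_960_0_0_ok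
  have r128 := r0.step s0_0
  have s128_0 := seg p13 960 968 128 144 _ 0 144 c13_960_128_0_ok
  have r144 := r128.step s128_0
  have s144_0 := seg p13 960 968 144 160 _ 0 160 c13_960_144_0_ok
  have r160 := r144.step s144_0
  have s160_0 := seg p13 960 968 160 176 _ 0 176 c13_960_160_0_ok
  have r176 := r160.step s160_0
  have s176_0 := seg p13 960 968 176 192 _ 0 192 c13_960_176_0_ok
  have r192 := r176.step s176_0
  have s192_0 := seg p13 960 968 192 208 _ 0 208 c13_960_192_0_ok
  have r208 := r192.step s192_0
  have s208_0 := seg p13 960 968 208 224 _ 0 224 c13_960_208_0_ok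
  have r224 := r208.step s208_0
  have s224_0 := seg p13 960 968 224 240 _ 0 240 c13_960_224_0_ok
  have r240 := r224.step s224_0
  have s240_0 := seg p13 960 968 240 256 _ 0 256 c13_960_240_0_ok
  have r256 := r240.step s240_0
  have s256_0 := seg p13 960 968 256 272 _ 0 272 c13_960_256_0_ok
  have r272 := r256.step s256_0
  have s272_0 := seg p13 960 968 272 288 _ 0 288 c13_960_272_0_ok
  have r288 := r272.step s272_0
  have s288_0 := seg p13 960 968 288 304 _ 0 304 c13_960_288_0_ok
  have r304 := r288.step s288_0
  have s304_0 := seg p13 960 968 304 320 _ 0 320 c13_960_304_0_ok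
  have r320 := r304.step s304_0
  have s320_0 := seg p13 960 968 320 336 _ 0 336 c13_960_320_0_ok
  have r336 := r320.step s320_0
  have s336_0 := seg p13 960 968 336 352 _ 0 352 c13_960_336_0_ok
  have r352 := r336.step s336_0
  have s352_0 := seg p13 960 968 352 368 _ 0 368 c13_960_352_0_ok
  have r368 := r352.step s352_0
  have s368_0 := seg p13 960 968 368 384 _ 0 384 c13_960_368_0_ok
  have r384 := r368.step s368_0
  have s384_0 := seg p13 960 968 384 400 _ 0 400 c13_960_384_0_ok
  have r400 := r384.step s384_0
  have s400_0 := seg p13 960 968 400 416 _ 0 416 c13_960_400_0_ok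
  have r416 := r400.step s400_0
  have s416_0 := seg p13 960 968 416 432 _ 0 432 c13_960_416_0_ok
  have r432 := r416.step s416_0
  have s432_0 := seg p13 960 968 432 448 _ 0 448 c13_960_432_0_ok
  have r448 := r432.step s432_0
  have s448_0 := seg p13 960 968 448 464 _ 0 464 c13_960_448_0_ok
  have r464 := r448.step s448_0
  have s464_0 := seg p13 960 968 464 480 _ 0 480 c13_960_464_0_ok
  have r480 := r464.step s464_0
  have s480_0 := seg p13 960 968 480 496 _ 0 496 c13_960_480_0_ok
  have r496 := r480.step s480_0
  have s496_0 := seg p13 960 968 496 512 _ 0 512 c13_960_496_0_ok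
  have r512 := r496.step s496_0
  exact r512.valid rfl

theorem v13_968 : VP p13 968 976 := by
  have r0 := rows0 p13 968 976
  have s0_0 := seg p13 968 976 0 128 _ 0 128 c13_968_0_0_ok
  have r128 := r0.step s0_0
  have s128_0 := seg p13 968 976 128 144 _ 0 144 c13_968_128_0_ok
  have r144 := r128.step s128_0
  have s144_0 := seg p13 968 976 144 160 _ 0 160 c13_968_144_0_ok
  have r160 := r144.step s144_0
  have s160_0 := seg p13 968 976 160 176 _ 0 176 c13_968_160_0_ok
  have r176 := r160.step s160_0
  have s176_0 := seg p13 968 976 176 192 _ 0 192 c13_968_176_0_ok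
  have r192 := r176.step s176_0
  have s192_0 := seg p13 968 976 192 208 _ 0 208 c13_968_192_0_ok
  have r208 := r192.step s192_0
  have s208_0 := seg p13 968 976 208 224 _ 0 224 c13_968_208_0_ok
  have r224 := r208.step s208_0
  have s224_0 := seg p13 968 976 224 240 _ 0 240 c13_968_224_0_ok
  have r240 := r224.step s224_0
  have s240_0 := seg p13 968 976 240 256 _ 0 256 c13_968_240_0_ok
  have r256 := r240.step s240_0
  have s256_0 := seg p13 968 976 256 272 _ 0 272 c13_968_256_0_ok
  have r272 := r256.step s256_0
  have s272_0 := seg p13 968 976 272 288 _ 0 288 c13_968_272_0_ok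
  have r288 := r272.step s272_0
  have s288_0 := seg p13 968 976 288 304 _ 0 304 c13_968_288_0_ok
  have r304 := r288.step s288_0
  have s304_0 := seg p13 968 976 304 320 _ 0 320 c13_968_304_0_ok
  have r320 := r304.step s304_0
  have s320_0 := seg p13 968 976 320 336 _ 0 336 c13_968_320_0_ok
  have r336 := r320.step s320_0
  have s336_0 := seg p13 968 976 336 352 _ 0 352 c13_968_336_0_ok
  have r352 := r336.step s336_0
  have s352_0 := seg p13 968 976 352 368 _ 0 368 c13_968_352_0_ok
  have r368 := r352.step s352_0
  have s368_0 := seg p13 968 976 368 384 _ 0 384 c13_968_368_0_ok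
  have r384 := r368.step s368_0
  have s384_0 := seg p13 968 976 384 400 _ 0 400 c13_968_384_0_ok
  have r400 := r384.step s384_0
  have s400_0 := seg p13 968 976 400 416 _ 0 416 c13_968_400_0_ok
  have r416 := r400.step s400_0
  have s416_0 := seg p13 968 976 416 432 _ 0 432 c13_968_416_0_ok
  have r432 := r416.step s416_0
  have s432_0 := seg p13 968 976 432 448 _ 0 448 c13_968_432_0_ok
  have r448 := r432.step s432_0
  have s448_0 := seg p13 968 976 448 464 _ 0 464 c13_968_448_0_ok
  have r464 := r448.step s448_0
  have s464_0 := seg p13 968 976 464 480 _ 0 480 c13_968_464_0_ok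
  have r480 := r464.step s464_0
  have s480_0 := seg p13 968 976 480 496 _ 0 496 c13_968_480_0_ok
  have r496 := r480.step s480_0
  have s496_0 := seg p13 968 976 496 512 _ 0 512 c13_968_496_0_ok
  have r512 := r496.step s496_0
  exact r512.valid rfl

theorem v13_976 : VP p13 976 984 := by
  have r0 := rows0 p13 976 984
  have s0_0 := seg p13 976 984 0 128 _ 0 128 c13_976_0_0_ok
  have r128 := r0.step s0_0
  have s128_0 := seg p13 976 984 128 144 _ 0 144 c13_976_128_0_ok
  have r144 := r128.step s128_0
  have s144_0 := seg p13 976 984 144 160 _ 0 160 c13_976_144_0_ok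
  have r160 := r144.step s144_0
  have s160_0 := seg p13 976 984 160 176 _ 0 176 c13_976_160_0_ok
  have r176 := r160.step s160_0
  have s176_0 := seg p13 976 984 176 192 _ 0 192 c13_976_176_0_ok
  have r192 := r176.step s176_0
  have s192_0 := seg p13 976 984 192 208 _ 0 208 c13_976_192_0_ok
  have r208 := r192.step s192_0
  have s208_0 := seg p13 976 984 208 224 _ 0 224 c13_976_208_0_ok
  have r224 := r208.step s208_0
  have s224_0 := seg p13 976 984 224 240 _ 0 240 c13_976_224_0_ok
  have r240 := r224.step s224_0
  have s240_0 := seg p13 976 984 240 256 _ 0 256 c13_976_240_0_ok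
  have r256 := r240.step s240_0
  have s256_0 := seg p13 976 984 256 272 _ 0 272 c13_976_256_0_ok
  have r272 := r256.step s256_0
  have s272_0 := seg p13 976 984 272 288 _ 0 288 c13_976_272_0_ok
  have r288 := r272.step s272_0
  have s288_0 := seg p13 976 984 288 304 _ 0 304 c13_976_288_0_ok
  have r304 := r288.step s288_0
  have s304_0 := seg p13 976 984 304 320 _ 0 320 c13_976_304_0_ok
  have r320 := r304.step s304_0
  have s320_0 := seg p13 976 984 320 336 _ 0 336 c13_976_320_0_ok
  have r336 := r320.step s320_0
  have s336_0 := seg p13 976 984 336 352 _ 0 352 c13_976_336_0_ok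
  have r352 := r336.step s336_0
  have s352_0 := seg p13 976 984 352 368 _ 0 368 c13_976_352_0_ok
  have r368 := r352.step s352_0
  have s368_0 := seg p13 976 984 368 384 _ 0 384 c13_976_368_0_ok
  have r384 := r368.step s368_0
  have s384_0 := seg p13 976 984 384 400 _ 0 400 c13_976_384_0_ok
  have r400 := r384.step s384_0
  have s400_0 := seg p13 976 984 400 416 _ 0 416 c13_976_400_0_ok
  have r416 := r400.step s400_0
  have s416_0 := seg p13 976 984 416 432 _ 0 432 c13_976_416_0_ok
  have r432 := r416.step s416_0
  have s432_0 := seg p13 976 984 432 448 _ 0 448 c13_976_432_0_ok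
  have r448 := r432.step s432_0
  have s448_0 := seg p13 976 984 448 464 _ 0 464 c13_976_448_0_ok
  have r464 := r448.step s448_0
  have s464_0 := seg p13 976 984 464 480 _ 0 480 c13_976_464_0_ok
  have r480 := r464.step s464_0
  have s480_0 := seg p13 976 984 480 496 _ 0 496 c13_976_480_0_ok
  have r496 := r480.step s480_0
  have s496_0 := seg p13 976 984 496 512 _ 0 512 c13_976_496_0_ok
  have r512 := r496.step s496_0
  exact r512.valid rfl

theorem v13_984 : VP p13 984 992 := by
  have r0 := rows0 p13 984 992
  have s0_0 := seg p13 984 992 0 128 _ 0 128 c13_984_0_0_ok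
  have r128 := r0.step s0_0
  have s128_0 := seg p13 984 992 128 144 _ 0 144 c13_984_128_0_ok
  have r144 := r128.step s128_0
  have s144_0 := seg p13 984 992 144 160 _ 0 160 c13_984_144_0_ok
  have r160 := r144.step s144_0
  have s160_0 := seg p13 984 992 160 176 _ 0 176 c13_984_160_0_ok
  have r176 := r160.step s160_0
  have s176_0 := seg p13 984 992 176 192 _ 0 192 c13_984_176_0_ok
  have r192 := r176.step s176_0
  have s192_0 := seg p13 984 992 192 208 _ 0 208 c13_984_192_0_ok
  have r208 := r192.step s192_0
  have s208_0 := seg p13 984 992 208 224 _ 0 224 c13_984_208_0_ok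
  have r224 := r208.step s208_0
  have s224_0 := seg p13 984 992 224 240 _ 0 240 c13_984_224_0_ok
  have r240 := r224.step s224_0
  have s240_0 := seg p13 984 992 240 256 _ 0 256 c13_984_240_0_ok
  have r256 := r240.step s240_0
  have s256_0 := seg p13 984 992 256 272 _ 0 272 c13_984_256_0_ok
  have r272 := r256.step s256_0
  have s272_0 := seg p13 984 992 272 288 _ 0 288 c13_984_272_0_ok
  have r288 := r272.step s272_0
  have s288_0 := seg p13 984 992 288 304 _ 0 304 c13_984_288_0_ok
  have r304 := r288.step s288_0
  have s304_0 := seg p13 984 992 304 320 _ 0 320 c13_984_304_0_ok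
  have r320 := r304.step s304_0
  have s320_0 := seg p13 984 992 320 336 _ 0 336 c13_984_320_0_ok
  have r336 := r320.step s320_0
  have s336_0 := seg p13 984 992 336 352 _ 0 352 c13_984_336_0_ok
  have r352 := r336.step s336_0
  have s352_0 := seg p13 984 992 352 368 _ 0 368 c13_984_352_0_ok
  have r368 := r352.step s352_0
  have s368_0 := seg p13 984 992 368 384 _ 0 384 c13_984_368_0_ok
  have r384 := r368.step s368_0
  have s384_0 := seg p13 984 992 384 400 _ 0 400 c13_984_384_0_ok
  have r400 := r384.step s384_0
  have s400_0 := seg p13 984 992 400 416 _ 0 416 c13_984_400_0_ok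
  have r416 := r400.step s400_0
  have s416_0 := seg p13 984 992 416 432 _ 0 432 c13_984_416_0_ok
  have r432 := r416.step s416_0
  have s432_0 := seg p13 984 992 432 448 _ 0 448 c13_984_432_0_ok
  have r448 := r432.step s432_0
  have s448_0 := seg p13 984 992 448 464 _ 0 464 c13_984_448_0_ok
  have r464 := r448.step s448_0
  have s464_0 := seg p13 984 992 464 480 _ 0 480 c13_984_464_0_ok
  have r480 := r464.step s464_0
  have s480_0 := seg p13 984 992 480 496 _ 0 496 c13_984_480_0_ok
  have r496 := r480.step s480_0
  have s496_0 := seg p13 984 992 496 512 _ 0 512 c13_984_496_0_ok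
  have r512 := r496.step s496_0
  exact r512.valid rfl

theorem v13 : Valid p13.ptl ((17 + ((13 : ℕ) : ℝ)) / 32) ((18 + ((13 : ℕ) : ℝ)) / 32) :=
  VP.cell 13 (VP.join (VP.join (VP.join v13_960 v13_968) v13_976) v13_984)

end Pool.Agent.Lib.MP250511.ST.Chk.D615
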