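import Pool.Agent.Lib.MP_250511_an.ST.FIN
import Pool.Agent.Lib.MP_250511_an.ST.D615.C14_992_0
import Pool.Agent.Lib.MP_250511_an.ST.D615.C14_1000_0
import Pool.Agent.Lib.MP_250511_an.ST.D615.C14_1000_1
import Pool.Agent.Lib.MP_250511_an.ST.D615.C14_1008_0
import Pool.Agent.Lib.MP_250511_an.ST.D615.C14_1008_1
import Pool.Agent.Lib.MP_250511_an.ST.D615.C14_1008_2
import Pool.Agent.Lib.MP_250511_an.ST.D615.C14_1016_0
import Pool.Agent.Lib.MP_250511_an.ST.D615.C14_1016_1
import Pool.Agent.Lib.MP_250511_an.ST.D615.C14_1016_2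
import Pool.Agent.Lib.MP_250511_an.ST.D615.C14_1016_3
import Pool.Agent.Lib.MP_250511_an.ST.D615.C14_1016_4

/-!
Problem MP_250511_an, Q2: validity of the potential `p14` (assembly of the kernel checks).
-/

set_option autoImplicit false

namespace Pool.Agent.Lib.MP250511.ST.Chk.D615

theorem v14_992 : VP p14 992 1000 := by
  have r0 := rows0 p14 992 1000
  have s0_0 := seg p14 992 1000 0 128 _ 0 128 c14_992_0_0_ok
  have r128 := r0.step s0_0
  have s128_0 := seg p14 992 1000 128 144 _ 0 144 c14_992_128_0_ok
  have r144 := r128.step s128_0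
  have s144_0 := seg p14 992 1000 144 160 _ 0 160 c14_992_144_0_ok
  have r160 := r144.step s144_0
  have s160_0 := seg p14 992 1000 160 176 _ 0 176 c14_992_160_0_ok
  have r176 := r160.step s160_0
  have s176_0 := seg p14 992 1000 176 192 _ 0 192 c14_992_176_0_ok
  have r192 := r176.step s176_0
  have s192_0 := seg p14 992 1000 192 208 _ 0 208 c14_992_192_0_ok
  have r208 := r192.step s192_0
  have s208_0 := seg p14 992 1000 208 224 _ 0 224 c14_992_208_0_ok
  have r224 := r208.step s208_0
  have s224_0 := seg p14 992 1000 224 240 _ 0 240 c14_992_224_0_ok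
  have r240 := r224.step s224_0
  have s240_0 := seg p14 992 1000 240 256 _ 0 256 c14_992_240_0_ok
  have r256 := r240.step s240_0
  have s256_0 := seg p14 992 1000 256 272 _ 0 272 c14_992_256_0_ok
  have r272 := r256.step s256_0
  have s272_0 := seg p14 992 1000 272 288 _ 0 288 c14_992_272_0_ok
  have r288 := r272.step s272_0
  have s288_0 := seg p14 992 1000 288 304 _ 0 304 c14_992_288_0_ok
  have r304 := r288.step s288_0
  have s304_0 := seg p14 992 1000 304 320 _ 0 320 c14_992_304_0_ok
  have r320 := r304.step s304_0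
  have s320_0 := seg p14 992 1000 320 336 _ 0 336 c14_992_320_0_ok
  have r336 := r320.step s320_0
  have s336_0 := seg p14 992 1000 336 352 _ 0 352 c14_992_336_0_ok
  have r352 := r336.step s336_0
  have s352_0 := seg p14 992 1000 352 368 _ 0 368 c14_992_352_0_ok
  have r368 := r352.step s352_0
  have s368_0 := seg p14 992 1000 368 384 _ 0 384 c14_992_368_0_ok
  have r384 := r368.step s368_0
  have s384_0 := seg p14 992 1000 384 400 _ 0 400 c14_992_384_0_ok
  have r400 := r384.step s384_0
  have s400_0 := seg p14 992 1000 400 416 _ 0 416 c14_992_400_0_ok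
  have r416 := r400.step s400_0
  have s416_0 := seg p14 992 1000 416 432 _ 0 432 c14_992_416_0_ok
  have r432 := r416.step s416_0
  have s432_0 := seg p14 992 1000 432 448 _ 0 448 c14_992_432_0_ok
  have r448 := r432.step s432_0
  have s448_0 := seg p14 992 1000 448 464 _ 0 464 c14_992_448_0_ok
  have r464 := r448.step s448_0
  have s464_0 := seg p14 992 1000 464 480 _ 0 480 c14_992_464_0_ok
  have r480 := r464.step s464_0
  have s480_0 := seg p14 992 1000 480 496 _ 0 496 c14_992_480_0_ok
  have r496 := r480.step s480_0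
  have s496_0 := seg p14 992 1000 496 512 _ 0 512 c14_992_496_0_ok
  have r512 := r496.step s496_0
  exact r512.valid rfl

theorem v14_1000 : VP p14 1000 1008 := by
  have r0 := rows0 p14 1000 1008
  have s0_0 := seg p14 1000 1008 0 128 _ 0 128 c14_1000_0_0_ok
  have r128 := r0.step s0_0
  have s128_0 := seg p14 1000 1008 128 144 _ 0 144 c14_1000_128_0_ok
  have r144 := r128.step s128_0
  have s144_0 := seg p14 1000 1008 144 160 _ 0 160 c14_1000_144_0_ok
  have r160 := r144.step s144_0
  have s160_0 := seg p14 1000 1008 160 176 _ 0 176 c14_1000_160_0_ok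
  have r176 := r160.step s160_0
  have s176_0 := seg p14 1000 1008 176 192 _ 0 192 c14_1000_176_0_ok
  have r192 := r176.step s176_0
  have s192_0 := seg p14 1000 1008 192 208 _ 0 208 c14_1000_192_0_ok
  have r208 := r192.step s192_0
  have s208_0 := seg p14 1000 1008 208 224 _ 0 224 c14_1000_208_0_ok
  have r224 := r208.step s208_0
  have s224_0 := seg p14 1000 1008 224 240 _ 0 240 c14_1000_224_0_ok
  have r240 := r224.step s224_0
  have s240_0 := seg p14 1000 1008 240 256 _ 0 256 c14_1000_240_0_ok
  have r256 := r240.step s240_0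
  have s256_0 := seg p14 1000 1008 256 272 _ 0 272 c14_1000_256_0_ok
  have r272 := r256.step s256_0
  have s272_0 := seg p14 1000 1008 272 288 _ 0 288 c14_1000_272_0_ok
  have r288 := r272.step s272_0
  have s288_0 := seg p14 1000 1008 288 304 _ 0 304 c14_1000_288_0_ok
  have r304 := r288.step s288_0
  have s304_0 := seg p14 1000 1008 304 320 _ 0 320 c14_1000_304_0_ok
  have r320 := r304.step s304_0
  have s320_0 := seg p14 1000 1008 320 336 _ 0 336 c14_1000_320_0_ok
  have r336 := r320.step s320_0
  have s336_0 := seg p14 1000 1008 336 352 _ 0 352 c14_1000_336_0_ok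
  have r352 := r336.step s336_0
  have s352_0 := seg p14 1000 1008 352 368 _ 0 368 c14_1000_352_0_ok
  have r368 := r352.step s352_0
  have s368_0 := seg p14 1000 1008 368 384 _ 0 384 c14_1000_368_0_ok
  have r384 := r368.step s368_0
  have s384_0 := seg p14 1000 1008 384 400 _ 0 400 c14_1000_384_0_ok
  have r400 := r384.step s384_0
  have s400_0 := seg p14 1000 1008 400 416 _ 0 416 c14_1000_400_0_ok
  have r416 := r400.step s400_0
  have s416_0 := seg p14 1000 1008 416 432 _ 0 432 c14_1000_416_0_ok
  have r432 := r416.step s416_0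
  have s432_0 := seg p14 1000 1008 432 448 _ 0 448 c14_1000_432_0_ok
  have r448 := r432.step s432_0
  have s448_0 := seg p14 1000 1008 448 464 _ 0 464 c14_1000_448_0_ok
  have r464 := r448.step s448_0
  have s464_0 := seg p14 1000 1008 464 480 _ 0 480 c14_1000_464_0_ok
  have r480 := r464.step s464_0
  have s480_0 := seg p14 1000 1008 480 496 _ 0 496 c14_1000_480_0_ok
  have r496 := r480.step s480_0
  have s496_0 := seg p14 1000 1008 496 512 _ 0 512 c14_1000_496_0_ok
  have r512 := r496.step s496_0
  exact r512.valid rfl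

theorem v14_1008 : VP p14 1008 1016 := by
  have r0 := rows0 p14 1008 1016
  have s0_0 := seg p14 1008 1016 0 128 _ 0 128 c14_1008_0_0_ok
  have r128 := r0.step s0_0
  have s128_0 := seg p14 1008 1016 128 144 _ 0 144 c14_1008_128_0_ok
  have r144 := r128.step s128_0
  have s144_0 := seg p14 1008 1016 144 160 _ 0 160 c14_1008_144_0_ok
  have r160 := r144.step s144_0
  have s160_0 := seg p14 1008 1016 160 176 _ 0 176 c14_1008_160_0_ok
  have r176 := r160.step s160_0
  have s176_0 := seg p14 1008 1016 176 192 _ 0 192 c14_1008_176_0_ok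
  have r192 := r176.step s176_0
  have s192_0 := seg p14 1008 1016 192 208 _ 0 208 c14_1008_192_0_ok
  have r208 := r192.step s192_0
  have s208_0 := seg p14 1008 1016 208 224 _ 0 224 c14_1008_208_0_ok
  have r224 := r208.step s208_0
  have s224_0 := seg p14 1008 1016 224 240 _ 0 240 c14_1008_224_0_ok
  have r240 := r224.step s224_0
  have s240_0 := seg p14 1008 1016 240 256 _ 0 256 c14_1008_240_0_ok
  have r256 := r240.step s240_0
  have s256_0 := seg p14 1008 1016 256 272 _ 0 272 c14_1008_256_0_ok
  have r272 := r256.step s256_0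
  have s272_0 := seg p14 1008 1016 272 288 _ 0 288 c14_1008_272_0_ok
  have r288 := r272.step s272_0
  have s288_0 := seg p14 1008 1016 288 304 _ 0 304 c14_1008_288_0_ok
  have r304 := r288.step s288_0
  have s304_0 := seg p14 1008 1016 304 320 _ 0 320 c14_1008_304_0_ok
  have r320 := r304.step s304_0
  have s320_0 := seg p14 1008 1016 320 336 _ 0 336 c14_1008_320_0_ok
  have r336 := r320.step s320_0
  have s336_0 := seg p14 1008 1016 336 352 _ 0 352 c14_1008_336_0_ok
  have r352 := r336.step s336_0
  have s352_0 := seg p14 1008 1016 352 368 _ 0 368 c14_1008_352_0_ok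
  have r368 := r352.step s352_0
  have s368_0 := seg p14 1008 1016 368 384 _ 0 384 c14_1008_368_0_ok
  have r384 := r368.step s368_0
  have s384_0 := seg p14 1008 1016 384 400 _ 0 400 c14_1008_384_0_ok
  have r400 := r384.step s384_0
  have s400_0 := seg p14 1008 1016 400 416 _ 0 416 c14_1008_400_0_ok
  have r416 := r400.step s400_0
  have s416_0 := seg p14 1008 1016 416 432 _ 0 432 c14_1008_416_0_ok
  have r432 := r416.step s416_0
  have s432_0 := seg p14 1008 1016 432 448 _ 0 448 c14_1008_432_0_ok
  have r448 := r432.step s432_0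
  have s448_0 := seg p14 1008 1016 448 464 _ 0 464 c14_1008_448_0_ok
  have r464 := r448.step s448_0
  have s464_0 := seg p14 1008 1016 464 480 _ 0 480 c14_1008_464_0_ok
  have r480 := r464.step s464_0
  have s480_0 := seg p14 1008 1016 480 496 _ 0 496 c14_1008_480_0_ok
  have r496 := r480.step s480_0
  have s496_0 := seg p14 1008 1016 496 512 _ 0 512 c14_1008_496_0_ok
  have r512 := r496.step s496_0
  exact r512.valid rfl

theorem v14_1016 : VP p14 1016 1024 := by
  have r0 := rows0 p14 1016 1024
  have s0_0 := seg p14 1016 1024 0 128 _ 0 128 c14_1016_0_0_ok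
  have r128 := r0.step s0_0
  have s128_0 := seg p14 1016 1024 128 144 _ 0 144 c14_1016_128_0_ok
  have r144 := r128.step s128_0
  have s144_0 := seg p14 1016 1024 144 160 _ 0 160 c14_1016_144_0_ok
  have r160 := r144.step s144_0
  have s160_0 := seg p14 1016 1024 160 176 _ 0 176 c14_1016_160_0_ok
  have r176 := r160.step s160_0
  have s176_0 := seg p14 1016 1024 176 192 _ 0 192 c14_1016_176_0_ok
  have r192 := r176.step s176_0
  have s192_0 := seg p14 1016 1024 192 208 _ 0 208 c14_1016_192_0_ok
  have r208 := r192.step s192_0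
  have s208_0 := seg p14 1016 1024 208 224 _ 0 224 c14_1016_208_0_ok
  have r224 := r208.step s208_0
  have s224_0 := seg p14 1016 1024 224 240 _ 0 240 c14_1016_224_0_ok
  have r240 := r224.step s224_0
  have s240_0 := seg p14 1016 1024 240 256 _ 0 256 c14_1016_240_0_ok
  have r256 := r240.step s240_0
  have s256_0 := seg p14 1016 1024 256 272 _ 0 240 c14_1016_256_0_ok
  have s256_240 := seg p14 1016 1024 256 272 _ 240 272 c14_1016_256_240_ok
  have t256_1 := s256_0.join s256_240
  have r272 := r256.step t256_1
  have s272_0 := seg p14 1016 1024 272 288 _ 0 224 c14_1016_272_0_ok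
  have s272_224 := seg p14 1016 1024 272 288 _ 224 288 c14_1016_272_224_ok
  have t272_1 := s272_0.join s272_224
  have r288 := r272.step t272_1
  have s288_0 := seg p14 1016 1024 288 304 _ 0 304 c14_1016_288_0_ok
  have r304 := r288.step s288_0
  have s304_0 := seg p14 1016 1024 304 320 _ 0 320 c14_1016_304_0_ok
  have r320 := r304.step s304_0
  have s320_0 := seg p14 1016 1024 320 336 _ 0 336 c14_1016_320_0_ok
  have r336 := r320.step s320_0
  have s336_0 := seg p14 1016 1024 336 352 _ 0 352 c14_1016_336_0_ok
  have r352 := r336.step s336_0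
  have s352_0 := seg p14 1016 1024 352 368 _ 0 368 c14_1016_352_0_ok
  have r368 := r352.step s352_0
  have s368_0 := seg p14 1016 1024 368 384 _ 0 384 c14_1016_368_0_ok
  have r384 := r368.step s368_0
  have s384_0 := seg p14 1016 1024 384 400 _ 0 400 c14_1016_384_0_ok
  have r400 := r384.step s384_0
  have s400_0 := seg p14 1016 1024 400 416 _ 0 416 c14_1016_400_0_ok
  have r416 := r400.step s400_0
  have s416_0 := seg p14 1016 1024 416 432 _ 0 432 c14_1016_416_0_ok
  have r432 := r416.step s416_0
  have s432_0 := seg p14 1016 1024 432 448 _ 0 448 c14_1016_432_0_ok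
  have r448 := r432.step s432_0
  have s448_0 := seg p14 1016 1024 448 464 _ 0 464 c14_1016_448_0_ok
  have r464 := r448.step s448_0
  have s464_0 := seg p14 1016 1024 464 480 _ 0 480 c14_1016_464_0_ok
  have r480 := r464.step s464_0
  have s480_0 := seg p14 1016 1024 480 496 _ 0 496 c14_1016_480_0_ok
  have r496 := r480.step s480_0
  have s496_0 := seg p14 1016 1024 496 512 _ 0 512 c14_1016_496_0_ok
  have r512 := r496.step s496_0
  exact r512.valid rfl

theorem v14 : Valid p14.ptl ((17 + ((14 : ℕ) : ℝ)) / 32) ((18 + ((14 : ℕ) : ℝ)) / 32) :=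
  VP.cell 14 (VP.join (VP.join (VP.join v14_992 v14_1000) v14_1008) v14_1016)

end Pool.Agent.Lib.MP250511.ST.Chk.D615
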