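import Pool.Agent.Lib.MP_250511_an.ST.FIN
import Pool.Agent.Lib.MP_250511_an.ST.D615.C4_672_0

/-!
Problem MP_250511_an, Q2: validity of the potential `p4` (assembly of the kernel checks).
-/

set_option autoImplicit false

namespace Pool.Agent.Lib.MP250511.ST.Chk.D615

theorem v4_672 : VP p4 672 704 := by
  have r0 := rows0 p4 672 704
  have s0_0 := seg p4 672 704 0 128 _ 0 128 c4_672_0_0_ok
  have r128 := r0.step s0_0
  have s128_0 := seg p4 672 704 128 144 _ 0 144 c4_672_128_0_ok
  have r144 := r128.step s128_0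
  have s144_0 := seg p4 672 704 144 160 _ 0 160 c4_672_144_0_ok
  have r160 := r144.step s144_0
  have s160_0 := seg p4 672 704 160 176 _ 0 176 c4_672_160_0_ok
  have r176 := r160.step s160_0
  have s176_0 := seg p4 672 704 176 192 _ 0 192 c4_672_176_0_ok
  have r192 := r176.step s176_0
  have s192_0 := seg p4 672 704 192 208 _ 0 208 c4_672_192_0_ok
  have r208 := r192.step s192_0
  have s208_0 := seg p4 672 704 208 224 _ 0 224 c4_672_208_0_ok
  have r224 := r208.step s208_0
  have s224_0 := seg p4 672 704 224 240 _ 0 240 c4_672_224_0_ok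
  have r240 := r224.step s224_0
  have s240_0 := seg p4 672 704 240 256 _ 0 256 c4_672_240_0_ok
  have r256 := r240.step s240_0
  have s256_0 := seg p4 672 704 256 272 _ 0 272 c4_672_256_0_ok
  have r272 := r256.step s256_0
  have s272_0 := seg p4 672 704 272 288 _ 0 288 c4_672_272_0_ok
  have r288 := r272.step s272_0
  have s288_0 := seg p4 672 704 288 304 _ 0 304 c4_672_288_0_ok
  have r304 := r288.step s288_0
  have s304_0 := seg p4 672 704 304 320 _ 0 320 c4_672_304_0_ok
  have r320 := r304.step s304_0
  have s320_0 := seg p4 672 704 320 336 _ 0 336 c4_672_320_0_ok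
  have r336 := r320.step s320_0
  have s336_0 := seg p4 672 704 336 352 _ 0 352 c4_672_336_0_ok
  have r352 := r336.step s336_0
  have s352_0 := seg p4 672 704 352 368 _ 0 368 c4_672_352_0_ok
  have r368 := r352.step s352_0
  have s368_0 := seg p4 672 704 368 384 _ 0 384 c4_672_368_0_ok
  have r384 := r368.step s368_0
  have s384_0 := seg p4 672 704 384 400 _ 0 400 c4_672_384_0_ok
  have r400 := r384.step s384_0
  have s400_0 := seg p4 672 704 400 416 _ 0 416 c4_672_400_0_ok
  have r416 := r400.step s400_0
  have s416_0 := seg p4 672 704 416 432 _ 0 432 c4_672_416_0_ok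
  have r432 := r416.step s416_0
  have s432_0 := seg p4 672 704 432 448 _ 0 448 c4_672_432_0_ok
  have r448 := r432.step s432_0
  have s448_0 := seg p4 672 704 448 464 _ 0 464 c4_672_448_0_ok
  have r464 := r448.step s448_0
  have s464_0 := seg p4 672 704 464 480 _ 0 480 c4_672_464_0_ok
  have r480 := r464.step s464_0
  have s480_0 := seg p4 672 704 480 496 _ 0 496 c4_672_480_0_ok
  have r496 := r480.step s480_0
  have s496_0 := seg p4 672 704 496 512 _ 0 512 c4_672_496_0_ok
  have r512 := r496.step s496_0
  exact r512.valid rfl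

theorem v4 : Valid p4.ptl ((17 + ((4 : ℕ) : ℝ)) / 32) ((18 + ((4 : ℕ) : ℝ)) / 32) :=
  VP.cell 4 v4_672

end Pool.Agent.Lib.MP250511.ST.Chk.D615
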