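import Pool.Agent.Lib.MP_250511_an.ST.FIN
import Pool.Agent.Lib.MP_250511_an.ST.LOGG
import Pool.Agent.Lib.MP_250511_an.ST.D615.Tab
import Pool.Agent.Lib.MP_250511_an.ST.D615.Rct
import Pool.Agent.Lib.MP_250511_an.ST.D615.V3
import Pool.Agent.Lib.MP_250511_an.ST.D615.V4
import Pool.Agent.Lib.MP_250511_an.ST.D615.V5
import Pool.Agent.Lib.MP_250511_an.ST.D615.V6
import Pool.Agent.Lib.MP_250511_an.ST.D615.V7
import Pool.Agent.Lib.MP_250511_an.ST.D615.V8
import Pool.Agent.Lib.MP_250511_an.ST.D615.V9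
import Pool.Agent.Lib.MP_250511_an.ST.D615.V10
import Pool.Agent.Lib.MP_250511_an.ST.D615.V11
import Pool.Agent.Lib.MP_250511_an.ST.D615.V12
import Pool.Agent.Lib.MP_250511_an.ST.D615.V13
import Pool.Agent.Lib.MP_250511_an.ST.D615.V14

/-!
Problem MP_250511_an, Q2: `S₁ ≥ 0.615` (all checks plugged together; helper41).
-/

set_option autoImplicit false

namespace Pool.Agent.Lib.MP250511.ST.Chk.D615

open Pool.Agent.Lib.MP250511.ST Pool.Agent.Lib.MP250511.ST.Chk

theorem vAll : ∀ i : ℕ, i ≤ 14 → Valid (tab i).ptl ((17 + (i : ℝ)) / 32) ((18 + (i : ℝ)) / 32) := by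
  intro i hi
  interval_cases i
  · exact trv_cell 0 (by norm_num)
  · exact trv_cell 1 (by norm_num)
  · exact trv_cell 2 (by norm_num)
  · exact v3
  · exact v4
  · exact v5
  · exact v6
  · exact v7
  · exact v8
  · exact v9
  · exact v10
  · exact v11
  · exact v12
  · exact v13
  · exact v14

theorem end615 : ENNReal.ofReal (615 / 1000) ≤ S₁ :=
  ofReal_le (log615 (V := 521980000) (by norm_num))
    (finish tab 521980000 rc vAll rc_ok rfl (Nat.le_of_ble_eq_true rfl))

end Pool.Agent.Lib.MP250511.ST.Chk.D615
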